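import Mathlib

/-!
# MP_cf02e9_co : permutation Wordle, Q1 for at most three rounds (all `n`, all strategies)
-/

namespace Pool.Agent.Results.MP_cf02e9_co.ThreeRounds

open Finset Equiv

variable {n : ℕ}

/-- The feedback `{i : γ i = σ i}` to the guess `γ` when the hidden permutation is `σ`. -/
def feedback (γ σ : Perm (Fin n)) : Finset (Fin n) := univ.filter fun i => γ i = σ i

lemma mem_feedback {γ σ : Perm (Fin n)} {i : Fin n} : i ∈ feedback γ σ ↔ γ i = σ i := by
  simp [feedback]

/-- A strategy: the next guess as a function of the list of all earlier feedback sets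
(in chronological order). -/
abbrev Strategy (n : ℕ) := List (Finset (Fin n)) → Perm (Fin n)

/-- The list of the first `r` feedback sets when the strategy `S` is played against `σ`. -/
def history (S : Strategy n) (σ : Perm (Fin n)) : ℕ → List (Finset (Fin n))
  | 0 => []
  | r + 1 => history S σ r ++ [feedback (S (history S σ r)) σ]

/-- The guess submitted in round `r + 1` when `S` is played against `σ`. -/
def guess (S : Strategy n) (σ : Perm (Fin n)) (r : ℕ) : Perm (Fin n) := S (history S σ r)

/-- The set of hidden permutations against which `S` wins within its first `r` guesses. -/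
def won (S : Strategy n) (r : ℕ) : Finset (Perm (Fin n)) :=
  univ.filter fun σ => ∃ k, k < r ∧ guess S σ k = σ

/-- The probability, over a uniformly random `σ`, that `S` wins within its first `r` guesses. -/
def P (S : Strategy n) (r : ℕ) : ℚ := (won S r).card / (n.factorial : ℚ)

/-- The cyclic shift `a_1 → a_2 → ... → a_ℓ → a_1` of `W = {a_1 < ... < a_ℓ}`. -/
def cyc (W : Finset (Fin n)) : Perm (Fin n) := (W.sort (· ≤ ·)).formPerm

/-- The strategy `𝓑`: start with the identity; after the guess `γ` with feedback `U`, guess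
`γ ∘ (cyc Uᶜ)⁻¹`, i.e. keep the correct entries and shift the incorrect entries cyclically. -/
def B (n : ℕ) : Strategy n := fun h => h.foldl (fun γ U => γ * (cyc Uᶜ)⁻¹) 1

lemma B_nil : B n [] = 1 := rfl

lemma B_append (h : List (Finset (Fin n))) (U : Finset (Fin n)) :
    B n (h ++ [U]) = B n h * (cyc Uᶜ)⁻¹ := by
  simp [B, List.foldl_append]

/-- cyclic successor relation -/
def IsSucc (W : Finset (Fin n)) (i j : Fin n) : Prop :=
  (i < j ∧ ∀ x ∈ W, x ≤ i ∨ j ≤ x) ∨ (∀ x ∈ W, j ≤ x ∧ x ≤ i)

lemma cyc_getElem (W : Finset (Fin n)) (k : ℕ) (hk : k < (W.sort (· ≤ ·)).length) :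
    cyc W ((W.sort (· ≤ ·))[k]) = (W.sort (· ≤ ·))[(k + 1) % (W.sort (· ≤ ·)).length]'
      (Nat.mod_lt _ (k.zero_le.trans_lt hk)) :=
  List.formPerm_apply_getElem _ (Finset.sort_nodup W (· ≤ ·)) k hk

lemma cyc_spec (W : Finset (Fin n)) (i : Fin n) (hi : i ∈ W) :
    cyc W i ∈ W ∧ IsSucc W i (cyc W i) := by
  set l := W.sort (· ≤ ·) with hl
  have hmem : ∀ x, x ∈ l ↔ x ∈ W := fun x => Finset.mem_sort (· ≤ ·)
  have hs : ∀ (a b : ℕ) (ha : a < l.length) (hb : b < l.length), a < b → l[a] < l[b] := by
    intro a b ha hb hab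
    exact (Finset.sortedLT_sort W).getElem_lt_getElem_of_lt hab
  have hs' : ∀ (a b : ℕ) (ha : a < l.length) (hb : b < l.length), a ≤ b → l[a] ≤ l[b] := by
    intro a b ha hb hab
    rcases hab.lt_or_eq with h | h
    · exact (hs a b ha hb h).le
    · subst h; exact le_rfl
  obtain ⟨k, hk, rfl⟩ := List.getElem_of_mem ((hmem i).2 hi)
  have e := cyc_getElem W k hk
  rw [e]
  refine ⟨(hmem _).1 (List.getElem_mem _), ?_⟩
  by_cases h1 : k + 1 < l.length
  · left
    have hm : (k + 1) % l.length = k + 1 := Nat.mod_eq_of_lt h1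
    have h2 : l[(k + 1) % l.length]'(Nat.mod_lt _ (k.zero_le.trans_lt hk)) = l[k + 1] := by
      congr 1
    rw [h2]
    refine ⟨hs _ _ _ _ (Nat.lt_succ_self k), ?_⟩
    intro x hx
    obtain ⟨j, hj, rfl⟩ := List.getElem_of_mem ((hmem x).2 hx)
    rcases Nat.lt_or_ge k j with h | h
    · right; exact hs' _ _ _ _ h
    · left; exact hs' _ _ _ _ h
  · right
    have hlen : k + 1 = l.length := by omega
    have hm : (k + 1) % l.length = 0 := by rw [hlen]; exact Nat.mod_self _
    have h2 : l[(k + 1) % l.length]'(Nat.mod_lt _ (k.zero_le.trans_lt hk)) = l[0] := by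
      congr 1
    rw [h2]
    intro x hx
    obtain ⟨j, hj, rfl⟩ := List.getElem_of_mem ((hmem x).2 hx)
    exact ⟨hs' _ _ _ _ (Nat.zero_le _), hs' _ _ _ _ (by omega)⟩

lemma isSucc_unique (W : Finset (Fin n)) (i j j' : Fin n) (hj : j ∈ W) (hj' : j' ∈ W)
    (h : IsSucc W i j) (h' : IsSucc W i j') : j = j' := by
  rcases h with ⟨h1, h2⟩ | h1 <;> rcases h' with ⟨h3, h4⟩ | h3
  · rcases h2 _ hj' with h | h <;> rcases h4 _ hj with h' | h' <;> order
  · have := h3 _ hj; order
  · have := h1 _ hj'; order
  · have := h3 _ hj; have := h1 _ hj'; order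

lemma isSucc_two (W : Finset (Fin n)) (i j : Fin n) (hi : i ∈ W) (hj : j ∈ W)
    (h : IsSucc W i j) (h' : IsSucc W j i) : ∀ x ∈ W, x = i ∨ x = j := by
  intro x hx
  rcases h with ⟨h1, h2⟩ | h1 <;> rcases h' with ⟨h3, h4⟩ | h3
  · order
  · rcases h2 _ hx with h | h
    · left; have := h3 _ hx; order
    · right; have := h3 _ hx; order
  · rcases h4 _ hx with h | h
    · right; have := h1 _ hx; order
    · left; have := h1 _ hx; order
  · left; have := h1 _ hx; have := h3 _ hx; have := h1 _ hi; have := h3 _ hi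
    have := h1 _ hj; have := h3 _ hj; order

lemma cyc_support (W : Finset (Fin n)) (hW : W.card ≠ 1) (i : Fin n) : cyc W i ≠ i ↔ i ∈ W := by
  have h := List.support_formPerm_of_nodup (W.sort (· ≤ ·)) (Finset.sort_nodup W (· ≤ ·)) (by
    intro x hx
    apply hW
    have := congrArg List.length hx
    simpa using this)
  have h2 : i ∈ (cyc W).support ↔ i ∈ W := by
    unfold cyc
    rw [h]; simp
  rw [← h2, Perm.mem_support]


/-- The admissible second error sets, given the first error set `C`. -/
def T (C : Finset (Fin n)) : Finset (Finset (Fin n)) :=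
  if C.card = 1 then ∅ else
    C.powerset.filter fun W => W.card ≠ 1 ∧ ∀ i ∈ C, W ≠ {i, cyc C i}

lemma mem_T {C W : Finset (Fin n)} :
    W ∈ T C ↔ C.card ≠ 1 ∧ W ⊆ C ∧ W.card ≠ 1 ∧ ∀ i ∈ C, W ≠ {i, cyc C i} := by
  unfold T
  split_ifs with h
  · simp [h]
  · simp [h]

lemma key_fix {C W : Finset (Fin n)} (hW : W ∈ T C) (i : Fin n) :
    cyc W (cyc C i) = i ↔ i ∉ C := by
  obtain ⟨hC, hWC, hW1, hW2⟩ := mem_T.1 hW
  constructor
  · intro h hi
    have hji : cyc C i ≠ i := (cyc_support C hC i).2 hi
    obtain ⟨hjC, hs⟩ := cyc_spec C i hi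
    by_cases hj : cyc C i ∈ W
    · have h3 := cyc_spec W _ hj
      rw [h] at h3
      obtain ⟨hiW, hs2⟩ := h3
      have hs' : IsSucc W i (cyc C i) := by
        rcases hs with ⟨h1, h2⟩ | h1
        · left; exact ⟨h1, fun x hx => h2 x (hWC hx)⟩
        · right; exact fun x hx => h1 x (hWC hx)
      apply hW2 i hi
      ext x
      constructor
      · intro hx
        have := isSucc_two W i (cyc C i) hiW hj hs' hs2 x hx
        simpa using this
      · intro hx
        simp only [mem_insert, mem_singleton] at hx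
        rcases hx with rfl | rfl <;> assumption
    · have := (cyc_support W hW1 (cyc C i)).not.2 hj
      push Not at this
      rw [this] at h
      exact hji h
  · intro hi
    have h1 := (cyc_support C hC i).not.2 hi
    push Not at h1
    have h2 := (cyc_support W hW1 i).not.2 (fun h => hi (hWC h))
    push Not at h2
    rw [h1, h2]

lemma fb_one {C W : Finset (Fin n)} (hW : W ∈ T C) :
    (feedback 1 ((cyc C)⁻¹ * (cyc W)⁻¹))ᶜ = C := by
  ext i
  rw [mem_compl, mem_feedback, ← not_iff_not, not_not, ← key_fix hW i, Perm.coe_one, id_eq,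
    Perm.coe_mul, Function.comp_apply, Perm.eq_inv_iff_eq, Perm.eq_inv_iff_eq]

lemma fb_two {C W : Finset (Fin n)} (hW : W ∈ T C) :
    (feedback (cyc C)⁻¹ ((cyc C)⁻¹ * (cyc W)⁻¹))ᶜ = W := by
  obtain ⟨hC, hWC, hW1, hW2⟩ := mem_T.1 hW
  ext i
  rw [mem_compl, mem_feedback, Perm.coe_mul, Function.comp_apply,
    EmbeddingLike.apply_eq_iff_eq, Perm.eq_inv_iff_eq]
  exact cyc_support W hW1 i

lemma guess_zero (S : Strategy n) (σ : Perm (Fin n)) : guess S σ 0 = S [] := rfl

lemma guess_one (S : Strategy n) (σ : Perm (Fin n)) :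
    guess S σ 1 = S [feedback (S []) σ] := rfl

lemma guess_two (S : Strategy n) (σ : Perm (Fin n)) :
    guess S σ 2 = S [feedback (S []) σ, feedback (S [feedback (S []) σ]) σ] := rfl

lemma mem_won_three (S : Strategy n) (σ : Perm (Fin n)) :
    σ ∈ won S 3 ↔ S [] = σ ∨ S [feedback (S []) σ] = σ ∨
      S [feedback (S []) σ, feedback (S [feedback (S []) σ]) σ] = σ := by
  simp only [won, mem_filter, mem_univ, true_and]
  constructor
  · rintro ⟨k, hk, h⟩
    interval_cases k
    · left; exact h
    · right; left; exact h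
    · right; right; exact h
  · rintro (h | h | h)
    · exact ⟨0, by norm_num, h⟩
    · exact ⟨1, by norm_num, h⟩
    · exact ⟨2, by norm_num, h⟩

/-- The permutations found within three rounds whose first error set is `C`. -/
def Fib (S : Strategy n) (C : Finset (Fin n)) : Finset (Perm (Fin n)) :=
  (won S 3).filter fun σ => (feedback (S []) σ)ᶜ = C

lemma card_won (S : Strategy n) :
    (won S 3).card = ∑ C ∈ (univ : Finset (Finset (Fin n))), (Fib S C).card :=
  Finset.card_eq_sum_card_fiberwise (fun _ _ => by simp)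

lemma B_guess {C W : Finset (Fin n)} (hW : W ∈ T C) :
    (cyc C)⁻¹ * (cyc W)⁻¹ ∈ Fib (B n) C := by
  set σ := (cyc C)⁻¹ * (cyc W)⁻¹ with hσ
  have h0 : B n [] = 1 := rfl
  have h1 : (feedback 1 σ)ᶜ = C := fb_one hW
  have h2 : (feedback (cyc C)⁻¹ σ)ᶜ = W := fb_two hW
  unfold Fib
  rw [mem_filter, mem_won_three]
  refine ⟨Or.inr (Or.inr ?_), by rw [h0]; exact h1⟩
  have h3 : B n [feedback 1 σ] = (cyc C)⁻¹ := by
    have := B_append ([] : List (Finset (Fin n))) (feedback 1 σ)
    rw [h1, h0, one_mul] at this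
    exact this
  have h4 : B n [feedback 1 σ, feedback (cyc C)⁻¹ σ] = (cyc C)⁻¹ * (cyc W)⁻¹ := by
    have := B_append ([feedback 1 σ] : List (Finset (Fin n))) (feedback (cyc C)⁻¹ σ)
    rw [h2, h3] at this
    exact this
  rw [h0, h3, h4]

lemma lower (C : Finset (Fin n)) : (T C).card ≤ (Fib (B n) C).card := by
  apply Finset.card_le_card_of_injOn (fun W => (cyc C)⁻¹ * (cyc W)⁻¹)
  · intro W hW
    exact B_guess hW
  · intro W hW W' hW' h
    have e1 := fb_two (mem_coe.1 hW)
    have e2 := fb_two (mem_coe.1 hW')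
    simp only at h
    rw [h] at e1
    exact e1.symm.trans e2

lemma T_lower (C : Finset (Fin n)) (hC : C.card ≠ 1) :
    2 ^ C.card - 2 * C.card ≤ (T C).card := by
  set A : Finset (Finset (Fin n)) :=
    C.image (fun i => ({i} : Finset (Fin n))) ∪ C.image (fun i => ({i, cyc C i} : Finset (Fin n)))
    with hA
  have h1 : C.powerset \ A ⊆ T C := by
    intro W hW
    rw [mem_sdiff, mem_powerset] at hW
    obtain ⟨hWC, hWA⟩ := hW
    rw [mem_T]
    refine ⟨hC, hWC, ?_, ?_⟩
    · intro h
      obtain ⟨a, rfl⟩ := Finset.card_eq_one.1 h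
      apply hWA
      rw [hA, mem_union]
      left
      rw [mem_image]
      exact ⟨a, hWC (mem_singleton_self a), rfl⟩
    · intro i hi h
      apply hWA
      rw [hA, mem_union]
      right
      rw [mem_image]
      exact ⟨i, hi, h.symm⟩
  have h2 : A.card ≤ 2 * C.card := by
    calc A.card ≤ _ + _ := Finset.card_union_le _ _
      _ ≤ C.card + C.card := add_le_add Finset.card_image_le Finset.card_image_le
      _ = 2 * C.card := by ring
  have h3 := Finset.le_card_sdiff A C.powerset
  rw [Finset.card_powerset] at h3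
  have h4 := Finset.card_le_card h1
  omega

/-- Permutations whose error set against the first guess `g` is `C`. -/
def K (g : Perm (Fin n)) (C : Finset (Fin n)) : Finset (Perm (Fin n)) :=
  univ.filter fun σ => ∀ i, g i ≠ σ i ↔ i ∈ C

lemma mem_K {g σ : Perm (Fin n)} {C : Finset (Fin n)} :
    σ ∈ K g C ↔ ∀ i, g i ≠ σ i ↔ i ∈ C := by simp [K]

lemma factM {g σ : Perm (Fin n)} {C : Finset (Fin n)} (h : σ ∈ K g C) {i : Fin n} (hi : i ∈ C) :
    ∃ k ∈ C, k ≠ i ∧ σ i = g k := by
  rw [mem_K] at h
  refine ⟨g⁻¹ (σ i), ?_, ?_, ?_⟩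
  · by_contra hk
    have h1 := (h (g⁻¹ (σ i))).not.2 hk
    push Not at h1
    have h0 : g (g⁻¹ (σ i)) = σ i := by simp
    rw [h0] at h1
    have h2 := σ.injective h1
    rw [← h2] at hk
    exact hk hi
  · intro hk
    apply (h i).2 hi
    rw [Perm.inv_eq_iff_eq] at hk
    exact hk.symm
  · simp

lemma K_two (g : Perm (Fin n)) (C : Finset (Fin n)) (hC : C.card = 2) : (K g C).card ≤ 1 := by
  obtain ⟨a, b, hab, rfl⟩ := Finset.card_eq_two.1 hC
  rw [Finset.card_le_one]
  intro σ hσ τ hτ
  have key : ∀ ρ ∈ K g {a, b}, ρ a = g b ∧ ρ b = g a := by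
    intro ρ hρ
    obtain ⟨k, hk, hk1, hk2⟩ := factM hρ (i := a) (by simp)
    obtain ⟨l, hl, hl1, hl2⟩ := factM hρ (i := b) (by simp)
    simp only [mem_insert, mem_singleton] at hk hl
    constructor
    · rcases hk with rfl | rfl
      · exact absurd rfl hk1
      · exact hk2
    · rcases hl with rfl | rfl
      · exact hl2
      · exact absurd rfl hl1
  ext i
  by_cases ha : i = a
  · subst ha; rw [(key σ hσ).1, (key τ hτ).1]
  by_cases hb : i = b
  · subst hb; rw [(key σ hσ).2, (key τ hτ).2]
  have hi : i ∉ ({a, b} : Finset (Fin n)) := by simp [ha, hb]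
  have h1 := ((mem_K.1 hσ) i).not.2 hi
  have h2 := ((mem_K.1 hτ) i).not.2 hi
  push Not at h1 h2
  rw [← h1, ← h2]

lemma K_three (g : Perm (Fin n)) (C : Finset (Fin n)) (hC : C.card = 3) : (K g C).card ≤ 2 := by
  obtain ⟨a, b, c, hab, hac, hbc, rfl⟩ := Finset.card_eq_three.1 hC
  have key : ∀ ρ ∈ K g {a, b, c}, (ρ a = g b ∧ ρ b = g c ∧ ρ c = g a) ∨
      (ρ a = g c ∧ ρ b = g a ∧ ρ c = g b) := by
    intro ρ hρ
    obtain ⟨k, hk, hk1, hk2⟩ := factM hρ (i := a) (by simp)
    obtain ⟨l, hl, hl1, hl2⟩ := factM hρ (i := b) (by simp)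
    obtain ⟨m, hm, hm1, hm2⟩ := factM hρ (i := c) (by simp)
    simp only [mem_insert, mem_singleton] at hk hl hm
    have i1 : ρ a ≠ ρ b := fun h => hab (ρ.injective h)
    have i2 : ρ a ≠ ρ c := fun h => hac (ρ.injective h)
    have i3 : ρ b ≠ ρ c := fun h => hbc (ρ.injective h)
    rcases hk with rfl | rfl | rfl
    · exact absurd rfl hk1
    · left
      rcases hm with rfl | rfl | rfl
      · rcases hl with rfl | rfl | rfl
        · exact absurd (hl2.trans hm2.symm) i3
        · exact absurd rfl hl1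
        · exact ⟨hk2, hl2, hm2⟩
      · exact absurd (hk2.trans hm2.symm) i2
      · exact absurd rfl hm1
    · right
      rcases hl with rfl | rfl | rfl
      · rcases hm with rfl | rfl | rfl
        · exact absurd (hl2.trans hm2.symm) i3
        · exact ⟨hk2, hl2, hm2⟩
        · exact absurd rfl hm1
      · exact absurd rfl hl1
      · exact absurd (hk2.trans hl2.symm) i1
  have hle : (K g {a, b, c}).card ≤ ({g b, g c} : Finset (Fin n)).card := by
    apply Finset.card_le_card_of_injOn (fun σ => σ a)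
    · intro σ hσ
      rcases key σ hσ with h | h
      · simp [h.1]
      · simp [h.1]
    · intro σ hσ τ hτ h
      simp only at h
      have hgbc : g b ≠ g c := fun h => hbc (g.injective h)
      have main : σ b = τ b ∧ σ c = τ c := by
        rcases key σ hσ with h1 | h1 <;> rcases key τ hτ with h2 | h2
        · exact ⟨h1.2.1.trans h2.2.1.symm, h1.2.2.trans h2.2.2.symm⟩
        · exact absurd (h1.1.symm.trans (h.trans h2.1)) hgbc
        · exact absurd (h2.1.symm.trans (h.symm.trans h1.1)) hgbc
        · exact ⟨h1.2.1.trans h2.2.1.symm, h1.2.2.trans h2.2.2.symm⟩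
      ext i
      by_cases ha : i = a
      · subst ha; rw [h]
      by_cases hb : i = b
      · subst hb; rw [main.1]
      by_cases hc : i = c
      · subst hc; rw [main.2]
      have hi : i ∉ ({a, b, c} : Finset (Fin n)) := by simp [ha, hb, hc]
      have h1 := ((mem_K.1 hσ) i).not.2 hi
      have h2 := ((mem_K.1 hτ) i).not.2 hi
      push Not at h1 h2
      rw [← h1, ← h2]
  exact hle.trans Finset.card_le_two


/-- The sets of errors inside `C` that can occur for the second guess `g2`. -/
def I (g1 g2 : Perm (Fin n)) (C : Finset (Fin n)) : Finset (Finset (Fin n)) :=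
  (K g1 C).image fun σ => C.filter fun i => g2 i ≠ σ i

lemma pow_bound (m : ℕ) (hm : 4 ≤ m) : 2 ^ (m - 1) ≤ 2 ^ m - 2 * m := by
  induction m, hm using Nat.le_induction with
  | base => norm_num
  | succ m hm ih =>
    have e : m + 1 - 1 = (m - 1) + 1 := by omega
    have h4 : 4 ≤ m := hm
    rw [e, pow_succ, pow_succ]
    have h1 : 2 ≤ 2 ^ (m - 1) := by
      calc 2 = 2 ^ 1 := by norm_num
        _ ≤ 2 ^ (m - 1) := Nat.pow_le_pow_right (by norm_num) (by omega)
    have h2 : 2 ^ m = 2 ^ (m - 1) * 2 := by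
      rw [← pow_succ, Nat.sub_add_cancel (by omega)]
    omega

/-- Case B: some position of `C` can never be correct in the second guess. -/
lemma I_caseB (g1 g2 : Perm (Fin n)) (C : Finset (Fin n)) (i0 : Fin n) (hi0 : i0 ∈ C)
    (h : ∀ k ∈ C, k ≠ i0 → g2 i0 ≠ g1 k) : (I g1 g2 C).card ≤ 2 ^ (C.card - 1) := by
  have hsub : I g1 g2 C ⊆ (C.erase i0).powerset.image (insert i0) := by
    intro W hW
    unfold I at hW
    rw [mem_image] at hW
    obtain ⟨σ, hσ, rfl⟩ := hW
    rw [mem_image]
    have hi : i0 ∈ C.filter (fun i => g2 i ≠ σ i) := by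
      rw [mem_filter]
      refine ⟨hi0, ?_⟩
      obtain ⟨k, hk, hk1, hk2⟩ := factM hσ hi0
      rw [hk2]
      exact h k hk hk1
    refine ⟨(C.filter (fun i => g2 i ≠ σ i)).erase i0, ?_, Finset.insert_erase hi⟩
    rw [mem_powerset]
    exact Finset.erase_subset_erase _ (Finset.filter_subset _ _)
  calc (I g1 g2 C).card ≤ _ := Finset.card_le_card hsub
    _ ≤ (C.erase i0).powerset.card := Finset.card_image_le
    _ = 2 ^ (C.card - 1) := by rw [Finset.card_powerset, Finset.card_erase_of_mem hi0]

/-- Case A: the second guess could be correct in each single position of `C`. -/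
lemma I_caseA (g1 g2 : Perm (Fin n)) (C : Finset (Fin n)) (hC : 3 ≤ C.card)
    (h : ∀ i ∈ C, ∃ k ∈ C, k ≠ i ∧ g2 i = g1 k) :
    (I g1 g2 C).card ≤ 2 ^ C.card - 2 * C.card := by
  classical
  -- the permutation τ
  set τ : Perm (Fin n) := g1⁻¹ * g2 with hτ
  have hg : ∀ i, g2 i = g1 (τ i) := by intro i; simp [hτ]
  have hτC : ∀ i ∈ C, τ i ∈ C ∧ τ i ≠ i := by
    intro i hi
    obtain ⟨k, hk, hk1, hk2⟩ := h i hi
    rw [hg i] at hk2
    have := g1.injective hk2
    rw [this]; exact ⟨hk, hk1⟩
  have himg : C.image g1 = C.image g2 := by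
    symm
    apply Finset.eq_of_subset_of_card_le
    · intro x hx
      rw [mem_image] at hx ⊢
      obtain ⟨i, hi, rfl⟩ := hx
      exact ⟨τ i, (hτC i hi).1, (hg i).symm⟩
    · rw [Finset.card_image_of_injective _ g1.injective,
        Finset.card_image_of_injective _ g2.injective]
  -- key fact F
  have factF : ∀ σ ∈ K g1 C, ∀ i ∈ C, g2 i ≠ σ i → ∃ j ∈ C, g2 j ≠ σ j ∧ j ≠ i ∧ σ i = g2 j := by
    intro σ hσ i hi hne
    obtain ⟨k, hk, hk1, hk2⟩ := factM hσ hi
    have : g1 k ∈ C.image g2 := by rw [← himg]; exact mem_image_of_mem _ hk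
    rw [mem_image] at this
    obtain ⟨j, hj, hj2⟩ := this
    have e : σ i = g2 j := hk2.trans hj2.symm
    have hji : j ≠ i := by
      rintro rfl
      exact hne e.symm
    refine ⟨j, hj, ?_, hji, e⟩
    intro h2
    exact hji (σ.injective (h2.symm.trans e.symm))
  -- a third element
  have hx : ∀ i, ∃ x, i ∈ C → (x ∈ C ∧ x ≠ i ∧ x ≠ τ i) := by
    intro i
    have h1 : 0 < (C \ {i, τ i}).card := by
      have := Finset.le_card_sdiff {i, τ i} C
      have h2 : ({i, τ i} : Finset (Fin n)).card ≤ 2 := Finset.card_le_two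
      omega
    obtain ⟨x, hx⟩ := Finset.card_pos.1 h1
    simp only [mem_sdiff, mem_insert, mem_singleton, not_or] at hx
    exact ⟨x, fun _ => ⟨hx.1, hx.2.1, hx.2.2⟩⟩
  choose x hx using hx
  set g : Fin n → Finset (Fin n) := fun i =>
    if τ (τ i) = i ∧ τ i < i then {x i, i, τ i} else {i, τ i} with hgdef
  have gpos : ∀ i, (τ (τ i) = i ∧ τ i < i) → g i = {x i, i, τ i} := by
    intro i hi; simp only [hgdef]; rw [if_pos hi]
  have gneg : ∀ i, ¬ (τ (τ i) = i ∧ τ i < i) → g i = {i, τ i} := by
    intro i hi; simp only [hgdef]; rw [if_neg hi]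
  have gcard3 : ∀ i ∈ C, (τ (τ i) = i ∧ τ i < i) → (g i).card = 3 := by
    intro i hi hh
    rw [gpos i hh]
    exact Finset.card_eq_three.2 ⟨x i, i, τ i, (hx i hi).2.1, (hx i hi).2.2, (hτC i hi).2.symm, rfl⟩
  have gcard2 : ∀ i ∈ C, ¬ (τ (τ i) = i ∧ τ i < i) → (g i).card = 2 := by
    intro i hi hh
    rw [gneg i hh]
    exact Finset.card_pair (hτC i hi).2.symm
  have ginj : Set.InjOn g (C : Set (Fin n)) := by
    intro i hi j hj hij
    have hi : i ∈ C := hi
    have hj : j ∈ C := hj
    by_contra hne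
    by_cases h1 : τ (τ i) = i ∧ τ i < i <;> by_cases h2 : τ (τ j) = j ∧ τ j < j
    · rw [gpos i h1, gpos j h2] at hij
      have hj1 : j ∈ ({x i, i, τ i} : Finset (Fin n)) := by rw [hij]; simp
      have hj2 : τ j ∈ ({x i, i, τ i} : Finset (Fin n)) := by rw [hij]; simp
      simp only [mem_insert, mem_singleton] at hj1 hj2
      rcases hj1 with hj1 | hj1 | hj1
      · rcases hj2 with hj2 | hj2 | hj2
        · exact (hτC j hj).2 (hj2.trans hj1.symm)
        · have : τ (τ j) = τ i := by rw [hj2]
          rw [h2.1, hj1] at this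
          exact (hx i hi).2.2 this
        · exact hne (τ.injective hj2).symm
      · exact hne hj1.symm
      · have : τ j = i := by rw [hj1]; exact h1.1
        have h3 := h2.2
        rw [this, hj1] at h3
        exact absurd h3 (not_lt.2 h1.2.le)
    · have := gcard3 i hi h1
      rw [hij, gcard2 j hj h2] at this
      omega
    · have := gcard2 i hi h1
      rw [hij, gcard3 j hj h2] at this
      omega
    · rw [gneg i h1, gneg j h2] at hij
      have hj1 : j ∈ ({i, τ i} : Finset (Fin n)) := by rw [hij]; simp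
      have hi1 : i ∈ ({j, τ j} : Finset (Fin n)) := by rw [← hij]; simp
      simp only [mem_insert, mem_singleton] at hj1 hi1
      have hj1 : j = τ i := by
        rcases hj1 with h | h
        · exact absurd h.symm hne
        · exact h
      have hi1 : i = τ j := by
        rcases hi1 with h | h
        · exact absurd h hne
        · exact h
      have e1 : τ (τ i) = i := by rw [← hj1]; exact hi1.symm
      have e2 : τ (τ j) = j := by rw [← hi1]; exact hj1.symm
      have f1 : ¬ τ i < i := fun hh => h1 ⟨e1, hh⟩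
      have f2 : ¬ τ j < j := fun hh => h2 ⟨e2, hh⟩
      rw [← hj1] at f1
      rw [← hi1] at f2
      exact hne (le_antisymm (not_lt.1 f1) (not_lt.1 f2))
  set A1 : Finset (Finset (Fin n)) := C.image (fun i => ({i} : Finset (Fin n))) with hA1
  set A2 : Finset (Finset (Fin n)) := C.image g with hA2
  have cA1 : A1.card = C.card := Finset.card_image_of_injective _ Finset.singleton_injective
  have cA2 : A2.card = C.card := Finset.card_image_of_injOn ginj
  have hdisj : Disjoint A1 A2 := by
    rw [Finset.disjoint_left]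
    intro W h1 h2
    rw [hA1, mem_image] at h1
    rw [hA2, mem_image] at h2
    obtain ⟨i, hi, rfl⟩ := h1
    obtain ⟨j, hj, hj2⟩ := h2
    have h3 := congrArg Finset.card hj2
    rw [Finset.card_singleton] at h3
    by_cases hh : τ (τ j) = j ∧ τ j < j
    · rw [gcard3 j hj hh] at h3; omega
    · rw [gcard2 j hj hh] at h3; omega
  have hsubC : A1 ∪ A2 ⊆ C.powerset := by
    intro W hW
    rw [mem_powerset]
    rw [mem_union] at hW
    rcases hW with hW | hW
    · rw [hA1, mem_image] at hW
      obtain ⟨i, hi, rfl⟩ := hW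
      simpa using hi
    · rw [hA2, mem_image] at hW
      obtain ⟨i, hi, rfl⟩ := hW
      by_cases hh : τ (τ i) = i ∧ τ i < i
      · rw [gpos i hh]
        intro y hy
        simp only [mem_insert, mem_singleton] at hy
        rcases hy with rfl | rfl | rfl
        · exact (hx i hi).1
        · exact hi
        · exact (hτC i hi).1
      · rw [gneg i hh]
        intro y hy
        simp only [mem_insert, mem_singleton] at hy
        rcases hy with rfl | rfl
        · exact hi
        · exact (hτC i hi).1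
  have hsub : I g1 g2 C ⊆ C.powerset \ (A1 ∪ A2) := by
    intro W hW
    unfold I at hW
    rw [mem_image] at hW
    obtain ⟨σ, hσ, rfl⟩ := hW
    have hK := mem_K.1 hσ
    rw [mem_sdiff, mem_powerset]
    refine ⟨Finset.filter_subset _ _, ?_⟩
    rw [mem_union, not_or]
    -- no `k = τ i` with σ k = g2 i
    have noBad : ∀ i ∈ C, σ (τ i) ≠ g2 i := by
      intro i hi he
      apply (hK (τ i)).2 (hτC i hi).1
      rw [← hg i, he]
    constructor
    · intro hm
      rw [hA1, mem_image] at hm
      obtain ⟨i, hi, he⟩ := hm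
      have hi2 : i ∈ C.filter (fun i => g2 i ≠ σ i) := by rw [← he]; simp
      rw [mem_filter] at hi2
      obtain ⟨j, hj, hj1, hj2, hj3⟩ := factF σ hσ i hi hi2.2
      have : j ∈ C.filter (fun i => g2 i ≠ σ i) := mem_filter.2 ⟨hj, hj1⟩
      rw [← he, mem_singleton] at this
      exact hj2 this
    · intro hm
      rw [hA2, mem_image] at hm
      obtain ⟨i, hi, he⟩ := hm
      by_cases hh : τ (τ i) = i ∧ τ i < i
      · rw [gpos i hh] at he
        have hmem : ∀ y, (y = x i ∨ y = i ∨ y = τ i) ↔ (y ∈ C ∧ g2 y ≠ σ y) := by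
          intro y
          have : y ∈ ({x i, i, τ i} : Finset (Fin n)) ↔ y ∈ C.filter (fun i => g2 i ≠ σ i) := by
            rw [he]
          simpa using this
        have hiW := (hmem i).1 (Or.inr (Or.inl rfl))
        have hkW := (hmem (τ i)).1 (Or.inr (Or.inr rfl))
        obtain ⟨j, hj, hj1, hj2, hj3⟩ := factF σ hσ (τ i) hkW.1 hkW.2
        obtain ⟨l, hl, hl1, hl2, hl3⟩ := factF σ hσ i hiW.1 hiW.2
        have hjx : j = x i := by
          rcases (hmem j).2 ⟨hj, hj1⟩ with h | h | h
          · exact h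
          · rw [h] at hj3; exact absurd hj3 (noBad i hi)
          · exact absurd h hj2
        have hlx : l = x i := by
          rcases (hmem l).2 ⟨hl, hl1⟩ with h | h | h
          · exact h
          · exact absurd h hl2
          · rw [h] at hl3
            have h5 := noBad (τ i) hkW.1
            rw [hh.1] at h5
            exact absurd hl3 h5
        rw [hjx] at hj3
        rw [hlx] at hl3
        exact (hτC i hi).2 (σ.injective (hj3.trans hl3.symm))
      · rw [gneg i hh] at he
        have hmem : ∀ y, (y = i ∨ y = τ i) ↔ (y ∈ C ∧ g2 y ≠ σ y) := by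
          intro y
          have : y ∈ ({i, τ i} : Finset (Fin n)) ↔ y ∈ C.filter (fun i => g2 i ≠ σ i) := by
            rw [he]
          simpa using this
        have hkW := (hmem (τ i)).1 (Or.inr rfl)
        obtain ⟨j, hj, hj1, hj2, hj3⟩ := factF σ hσ (τ i) hkW.1 hkW.2
        rcases (hmem j).2 ⟨hj, hj1⟩ with h | h
        · rw [h] at hj3; exact absurd hj3 (noBad i hi)
        · exact absurd h hj2
  calc (I g1 g2 C).card ≤ (C.powerset \ (A1 ∪ A2)).card := Finset.card_le_card hsub
    _ = C.powerset.card - (A1 ∪ A2).card := Finset.card_sdiff_of_subset hsubC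
    _ = 2 ^ C.card - 2 * C.card := by
        rw [Finset.card_powerset, Finset.card_union_of_disjoint hdisj, cA1, cA2, two_mul]

lemma empty_mem_T (C : Finset (Fin n)) (hC : C.card ≠ 1) : (∅ : Finset (Fin n)) ∈ T C := by
  rw [mem_T]
  refine ⟨hC, Finset.empty_subset _, by simp, ?_⟩
  intro i hi h
  have : i ∈ (∅ : Finset (Fin n)) := by rw [h]; simp
  simp at this

lemma K_one (g : Perm (Fin n)) (C : Finset (Fin n)) (hC : C.card = 1) : K g C = ∅ := by
  obtain ⟨a, rfl⟩ := Finset.card_eq_one.1 hC
  rw [Finset.eq_empty_iff_forall_notMem]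
  intro σ hσ
  obtain ⟨k, hk, hk1, hk2⟩ := factM hσ (i := a) (by simp)
  rw [mem_singleton] at hk
  exact hk1 hk

lemma I_card_le (g1 g2 : Perm (Fin n)) (C : Finset (Fin n)) :
    (I g1 g2 C).card ≤ (T C).card := by
  have hIK : (I g1 g2 C).card ≤ (K g1 C).card := Finset.card_image_le
  by_cases h1 : C.card = 1
  · rw [K_one g1 C h1] at hIK
    simp at hIK
    rw [hIK]; simp
  have hT1 : 1 ≤ (T C).card := Finset.card_pos.2 ⟨∅, empty_mem_T C h1⟩
  have hT2 := T_lower C h1
  by_cases h0 : C.card = 0
  · have hC : C = ∅ := Finset.card_eq_zero.1 h0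
    have : I g1 g2 C ⊆ {∅} := by
      intro W hW
      unfold I at hW
      rw [mem_image] at hW
      obtain ⟨σ, hσ, rfl⟩ := hW
      rw [hC]; simp
    exact (Finset.card_le_card this).trans (by simpa using hT1)
  by_cases h2 : C.card = 2
  · exact hIK.trans ((K_two g1 C h2).trans hT1)
  by_cases h3 : C.card = 3
  · rw [h3] at hT2
    norm_num at hT2
    exact hIK.trans ((K_three g1 C h3).trans hT2)
  have h4 : 4 ≤ C.card := by omega
  by_cases hA : ∀ i ∈ C, ∃ k ∈ C, k ≠ i ∧ g2 i = g1 k
  · exact (I_caseA g1 g2 C (by omega) hA).trans hT2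
  · push Not at hA
    obtain ⟨i0, hi0, hh⟩ := hA
    exact (I_caseB g1 g2 C i0 hi0 hh).trans ((pow_bound _ h4).trans hT2)

lemma upper (S : Strategy n) (C : Finset (Fin n)) : (Fib S C).card ≤ (T C).card := by
  set g1 := S [] with hg1
  set g2 := S [Cᶜ] with hg2
  have hfb : ∀ σ ∈ Fib S C, feedback g1 σ = Cᶜ := by
    intro σ hσ
    unfold Fib at hσ
    rw [mem_filter] at hσ
    rw [← hσ.2, compl_compl]
  have hK : ∀ σ ∈ Fib S C, σ ∈ K g1 C := by
    intro σ hσ
    rw [mem_K]
    intro i
    have h1 : i ∈ feedback g1 σ ↔ i ∈ Cᶜ := by rw [hfb σ hσ]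
    rw [mem_feedback, mem_compl] at h1
    rw [not_iff_comm, ← h1] 
  refine le_trans ?_ (I_card_le g1 g2 C)
  apply Finset.card_le_card_of_injOn (fun σ => C.filter fun i => g2 i ≠ σ i)
  · intro σ hσ
    unfold I
    rw [mem_coe, mem_image]
    exact ⟨σ, hK σ hσ, rfl⟩
  · intro σ hσ ρ hρ he
    have hσ : σ ∈ Fib S C := hσ
    have hρ : ρ ∈ Fib S C := hρ
    simp only at he
    have hf2 : feedback g2 σ = feedback g2 ρ := by
      ext i
      rw [mem_feedback, mem_feedback]
      by_cases hi : i ∈ C
      · have h1 : i ∈ C.filter (fun i => g2 i ≠ σ i) ↔ i ∈ C.filter (fun i => g2 i ≠ ρ i) := by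
          rw [he]
        simp only [mem_filter, hi, true_and] at h1
        exact not_iff_not.1 h1
      · have h1 := ((mem_K.1 (hK σ hσ)) i).not.2 hi
        have h2 := ((mem_K.1 (hK ρ hρ)) i).not.2 hi
        push Not at h1 h2
        rw [← h1, ← h2]
    have hw1 : σ ∈ won S 3 := (mem_filter.1 hσ).1
    have hw2 : ρ ∈ won S 3 := (mem_filter.1 hρ).1
    rw [mem_won_three, ← hg1, hfb σ hσ, ← hg2] at hw1
    rw [mem_won_three, ← hg1, hfb ρ hρ, ← hg2] at hw2
    have hfull : ∀ (g α : Perm (Fin n)), feedback g α = univ → g = α := by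
      intro g α h
      ext i
      have : i ∈ feedback g α := by rw [h]; simp
      rw [mem_feedback] at this
      rw [this]
    have hself : ∀ (g : Perm (Fin n)), feedback g g = univ := by
      intro g; ext i; simp [mem_feedback]
    rcases hw1 with h | h | h
    · have e1 := hfb σ hσ
      rw [← h, hself] at e1
      have e2 := hfb ρ hρ
      rw [← e1] at e2
      exact h.symm.trans (hfull _ _ e2)
    · rw [← h, hself] at hf2
      exact h.symm.trans (hfull _ _ hf2.symm)
    · rcases hw2 with h' | h' | h'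
      · have e1 := hfb ρ hρ
        rw [← h', hself] at e1
        have e2 := hfb σ hσ
        rw [← e1] at e2
        exact (hfull _ _ e2).symm.trans h'
      · rw [← h', hself] at hf2
        exact (hfull _ _ hf2).symm.trans h'
      · rw [← hf2] at h'
        exact h.symm.trans h'

theorem card_three (S : Strategy n) : (won S 3).card ≤ (won (B n) 3).card := by
  rw [card_won S, card_won (B n)]
  exact Finset.sum_le_sum fun C _ => (upper S C).trans (lower C)


lemma mem_won_two (S : Strategy n) (σ : Perm (Fin n)) :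
    σ ∈ won S 2 ↔ S [] = σ ∨ S [feedback (S []) σ] = σ := by
  simp only [won, mem_filter, mem_univ, true_and]
  constructor
  · rintro ⟨k, hk, h⟩
    interval_cases k
    · left; exact h
    · right; exact h
  · rintro (h | h)
    · exact ⟨0, by norm_num, h⟩
    · exact ⟨1, by norm_num, h⟩

lemma won_one (S : Strategy n) : won S 1 = {S []} := by
  ext σ
  simp only [won, mem_filter, mem_univ, true_and, mem_singleton]
  constructor
  · rintro ⟨k, hk, h⟩
    interval_cases k
    exact h.symm
  · intro h
    exact ⟨0, by norm_num, h.symm⟩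

theorem card_two (S : Strategy n) : (won S 2).card ≤ (won (B n) 2).card := by
  have h1 : (won S 2).card ≤
      ((univ : Finset (Finset (Fin n))).filter fun C => C.card ≠ 1).card := by
    apply Finset.card_le_card_of_injOn (fun σ => (feedback (S []) σ)ᶜ)
    · intro σ hσ
      rw [mem_coe, mem_filter]
      refine ⟨mem_univ _, ?_⟩
      intro hc
      have hk := K_one (S []) _ hc
      have : σ ∈ K (S []) (feedback (S []) σ)ᶜ := by
        rw [mem_K]; intro i; rw [mem_compl, mem_feedback]
      rw [hk] at this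
      simp at this
    · intro σ hσ ρ hρ he
      have he' : feedback (S []) σ = feedback (S []) ρ := compl_injective he
      have hw1 := (mem_won_two S σ).1 hσ
      have hw2 := (mem_won_two S ρ).1 hρ
      have hfull : ∀ (g α : Perm (Fin n)), feedback g α = univ → g = α := by
        intro g α h
        ext i
        have : i ∈ feedback g α := by rw [h]; simp
        rw [mem_feedback] at this
        rw [this]
      have hself : ∀ (g : Perm (Fin n)), feedback g g = univ := by
        intro g; ext i; simp [mem_feedback]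
      rcases hw1 with h | h
      · have e1 := hself (S [])
        rw [h] at e1 he'
        rw [e1] at he'
        exact hfull _ _ he'.symm
      · rcases hw2 with h' | h'
        · have e1 := hself (S [])
          rw [h'] at e1 he'
          rw [e1] at he'
          exact (hfull _ _ he').symm
        · rw [← he'] at h'
          exact h.symm.trans h'
  refine h1.trans ?_
  apply Finset.card_le_card_of_injOn (fun C => (cyc C)⁻¹)
  · intro C hC
    have hC1 : C.card ≠ 1 := (mem_filter.1 (mem_coe.1 hC)).2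
    have hf := fb_one (empty_mem_T C hC1)
    have he : cyc (∅ : Finset (Fin n)) = 1 := by simp [cyc]
    rw [he, inv_one, mul_one] at hf
    rw [mem_coe, mem_won_two]
    right
    have h0 : B n [] = 1 := rfl
    have := B_append ([] : List (Finset (Fin n))) (feedback 1 (cyc C)⁻¹)
    rw [hf, h0, one_mul] at this
    rw [h0]
    exact this
  · intro C hC D hD h
    have hC1 : C.card ≠ 1 := (mem_filter.1 (mem_coe.1 hC)).2
    have hD1 : D.card ≠ 1 := (mem_filter.1 (mem_coe.1 hD)).2
    have hCf := fb_one (empty_mem_T C hC1)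
    have hDf := fb_one (empty_mem_T D hD1)
    simp only at h
    rw [h] at hCf
    exact hCf.symm.trans hDf

/-- The strategy `B` obeys the rule of the problem: with `[n] ∖ U = {a_0 < ... < a_{ℓ-1}}` (listed
by `l`), the next guess keeps the entries in `U`, sends `a_j` to the old entry at `a_{j-1}` for
`j ≥ 1`, and sends `a_0` to the old entry at `a_{ℓ-1}`. -/
theorem B_spec (h : List (Finset (Fin n))) (U : Finset (Fin n)) :
    (∀ i ∈ U, B n (h ++ [U]) i = B n h i) ∧
    (∀ j, (hj : j + 1 < (Uᶜ.sort (· ≤ ·)).length) →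
      B n (h ++ [U]) ((Uᶜ.sort (· ≤ ·))[j + 1]) = B n h ((Uᶜ.sort (· ≤ ·))[j])) ∧
    (∀ h0 : 0 < (Uᶜ.sort (· ≤ ·)).length,
      B n (h ++ [U]) ((Uᶜ.sort (· ≤ ·))[0]) =
        B n h ((Uᶜ.sort (· ≤ ·))[(Uᶜ.sort (· ≤ ·)).length - 1])) := by
  refine ⟨?_, ?_, ?_⟩
  · intro i hi
    rw [B_append, Perm.coe_mul, Function.comp_apply]
    congr 1
    rw [Perm.inv_eq_iff_eq]
    unfold cyc
    rw [List.formPerm_apply_of_notMem]
    simpa using hi
  · intro j hj
    rw [B_append, Perm.coe_mul, Function.comp_apply]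
    congr 1
    rw [Perm.inv_eq_iff_eq, cyc_getElem Uᶜ j (by omega)]
    congr 1
    exact (Nat.mod_eq_of_lt hj).symm
  · intro h0
    rw [B_append, Perm.coe_mul, Function.comp_apply]
    congr 1
    rw [Perm.inv_eq_iff_eq, cyc_getElem Uᶜ _ (by omega)]
    congr 1
    rw [Nat.sub_add_cancel (by omega), Nat.mod_self]

/-- **Q1 of MP_cf02e9_co for at most three rounds.** For every `n`, every strategy `S` and every
`r ≤ 3`, the cyclic-shift strategy `B` wins within `r` guesses with probability at least that of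
`S`. -/
theorem result (n : ℕ) (S : Strategy n) (r : ℕ) (hr : r ≤ 3) : P S r ≤ P (B n) r := by
  have hcard : (won S r).card ≤ (won (B n) r).card := by
    interval_cases r
    · have : won S 0 = ∅ := by
        ext σ; simp [won]
      rw [this]; simp
    · rw [won_one, won_one, Finset.card_singleton, Finset.card_singleton]
    · exact card_two S
    · exact card_three S
  unfold P
  have h0 : (0 : ℚ) ≤ (n.factorial : ℚ) := by positivity
  exact div_le_div_of_nonneg_right (by exact_mod_cast hcard) h0

end Pool.Agent.Results.MP_cf02e9_co.ThreeRounds
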